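import Pool.Agent.Helper79.TL.Core

/-!
# TL-B5: the sum of the conjugates of `E` over the group
-/

set_option autoImplicit false
set_option linter.unusedSectionVars false

open Module

namespace Pool.Agent.Helper79.TL.B5

open Pool.Agent.Helper79.TL

variable {K : Type} [Field K] {G : Type} [Group G] {D : GPre G} {V : Type} [AddCommGroup V]
  [Module K V] (ρ : Representation K G V) (hD : D.Good)

open GPre

include hD in
theorem E_O' (h2 : (2 : K) ≠ 0) {g : G} (hg : D.Is g .O) {v : V} (hv : v ∈ D.Vl ρ) :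
    D.E ρ (ρ g v) = 0 := by
  obtain ⟨a, b, hab⟩ := hg
  have h1 : D.E ρ (ρ g v) = - D.E ρ (ρ g v) := by
    conv_lhs => rw [← E_r ρ hD a, ← rho_mul, hab, rho_mul, rho_mul, hv.1 b, hv.2, map_neg, map_neg]
  have h3 : (2 : K) • D.E ρ (ρ g v) = 0 := by
    rw [two_smul]
    nth_rewrite 1 [h1]
    exact neg_add_cancel _
  exact (smul_eq_zero.1 h3).resolve_left h2

include hD in
lemma tpow_E (k : ℕ) (v : V) : ρ (D.t ^ k) (D.E ρ v) = D.E ρ (ρ (D.t ^ k) v) := by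
  induction k generalizing v with
  | zero => simp
  | succ n ih => rw [pow_succ, rho_mul, rho_mul, t_E ρ hD, ih]

include hD in
lemma spow_E (k : ℕ) (v : V) : ρ (D.s ^ k) (D.E ρ v) = D.E ρ (ρ (D.s ^ k) v) := by
  induction k generalizing v with
  | zero => simp
  | succ n ih => rw [pow_succ, rho_mul, rho_mul, s_E ρ hD, ih]

include hD in
lemma zpow_E (k : ℕ) (v : V) : ρ (D.z ^ k) (D.E ρ v) = D.E ρ (ρ (D.z ^ k) v) := by
  induction k generalizing v with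
  | zero => simp
  | succ n ih => rw [pow_succ, rho_mul, rho_mul, z_E ρ hD, ih]

include hD in
lemma hel_E (p : HI) (v : V) : ρ (D.hel p) (D.E ρ v) = D.E ρ (ρ (D.hel p) v) := by
  unfold hel
  rw [rho_mul, rho_mul, rho_mul, rho_mul, rho_mul, rho_mul, spow_E ρ hD, tpow_E ρ hD, r_E ρ hD,
    ← zpow_E ρ hD, E_r ρ hD]

include hD in
lemma neg_mem {g : G} {v : V} (hv : ρ D.z v = -v) : ρ D.z (ρ g v) = - ρ g v := by
  rw [← rho_mul, hD.z_comm, rho_mul, hv, map_neg]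

include hD in
lemma tpow_mem (k : ℕ) {v : V} (hv : v ∈ D.Vl ρ) : ρ (D.t ^ k) v ∈ D.Vl ρ := by
  induction k with
  | zero => simpa using hv
  | succ n ih => rw [pow_succ', rho_mul]; exact t_mem ρ hD ih

lemma tM_pow_coe (k : ℕ) (v : ↥(D.Vl ρ)) :
    (((tM ρ hD ^ k) v : ↥(D.Vl ρ)) : V) = ρ (D.t ^ k) v := by
  induction k generalizing v with
  | zero => simp
  | succ n ih => rw [pow_succ, pow_succ, rho_mul]; exact ih _

include hD in
lemma t_inv (k : ℕ) : (D.t ^ k)⁻¹ = D.t ^ (4 * k) := by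
  rw [inv_eq_iff_mul_eq_one, ← pow_add, show k + 4 * k = 5 * k by ring, pow_mul, hD.t_pow,
    one_pow]

include hD in
lemma x_inv (j : Fin 3) : (D.x j)⁻¹ = D.x j := by
  rw [inv_eq_iff_mul_eq_one, hD.x_sq]

include hD in
lemma r_inv (a : Fin 16) : (D.r a)⁻¹ = D.r a := by
  rw [inv_eq_iff_mul_eq_one, hD.r_sq]

/-- the term of `g` -/
noncomputable def F (D : GPre G) (m : V) (g : G) : V := D.E ρ (ρ g (D.E ρ (ρ g⁻¹ m)))

include hD in
lemma F_hel (m : V) (g : G) (p : HI) : F ρ D m (g * D.hel p) = F ρ D m g := by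
  unfold F
  rw [rho_mul, hel_E ρ hD, mul_inv_rev, ← rho_mul, mul_inv_cancel_left]

include hD in
lemma F_one (m : ↥(D.Vl ρ)) : F ρ D (m : V) 1 = (256 : K) • (m : V) := by
  unfold F
  rw [inv_one, map_one]
  change D.E ρ (D.E ρ (m : V)) = _
  rw [E_of_mem ρ hD m.2, map_smul, E_of_mem ρ hD m.2, smul_smul]
  norm_num

include hD in
lemma F_w (h2 : (2 : K) ≠ 0) (m : ↥(D.Vl ρ)) (k : Fin 5) :
    F ρ D (m : V) (D.t ^ (k : ℕ) * D.w) = 0 := by
  unfold F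
  exact E_O' ρ hD h2 (hD.w_O k) (E_mem ρ hD (neg_mem ρ hD m.2.2))

lemma F_x (m : ↥(D.Vl ρ)) (k : ℕ) (c : Fin 16) (j : Fin 3) :
    F ρ D (m : V) (D.t ^ k * (D.r c * D.x j)) =
      (((tM ρ hD ^ k * (YM ρ hD j * YM ρ hD j) * tM ρ hD ^ (4 * k)) m : ↥(D.Vl ρ)) : V) := by
  have h1 : (((tM ρ hD ^ k * (YM ρ hD j * YM ρ hD j) * tM ρ hD ^ (4 * k)) m : ↥(D.Vl ρ)) : V) =
      ρ (D.t ^ k) (D.E ρ (ρ (D.x j) (D.E ρ (ρ (D.x j) (ρ (D.t ^ (4 * k)) m))))) := by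
    change (((tM ρ hD ^ k) (YM ρ hD j (YM ρ hD j ((tM ρ hD ^ (4 * k)) m))) : ↥(D.Vl ρ)) : V) = _
    rw [tM_pow_coe, YM_coe, YM_coe, tM_pow_coe]
  rw [h1]
  unfold F
  rw [mul_inv_rev, mul_inv_rev, x_inv hD, r_inv hD, t_inv hD, rho_mul, rho_mul, ← tpow_E ρ hD,
    E_r ρ hD, rho_mul, rho_mul, (tpow_mem ρ hD (4 * k) m.2).1 c]

include hD in
lemma sum_F [Fintype G] (h2 : (2 : K) ≠ 0) (m : ↥(D.Vl ρ)) :
    ∑ g : G, F ρ D (m : V) g =
      (2560 : K) • ((Zop (tM ρ hD) (YM ρ hD) m : ↥(D.Vl ρ)) : V) := by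
  classical
  rw [← (Equiv.ofBijective _ hD.bij).sum_comp (fun g => F ρ D (m : V) g)]
  simp only [Equiv.ofBijective_apply]
  rw [Fintype.sum_prod_type]
  have h1 : ∀ b : BI, ∑ p : HI, F ρ D (m : V) (D.B b * D.hel p) =
      (320 : K) • F ρ D (m : V) (D.B b) := by
    intro b
    have hc : (Finset.univ : Finset HI).card = 320 := by
      rw [Finset.card_univ, Fintype.card_prod, Fintype.card_prod, Fintype.card_prod,
        Fintype.card_fin, Fintype.card_fin, Fintype.card_fin]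
    rw [Finset.sum_congr rfl (fun p _ => F_hel ρ hD (m : V) (D.B b) p), Finset.sum_const,
      hc, ← Nat.cast_smul_eq_nsmul K, Nat.cast_ofNat]
  rw [Finset.sum_congr rfl (fun b _ => h1 b), ← Finset.smul_sum, Fintype.sum_sum_type,
    Fintype.sum_option]
  have h3 : F ρ D (m : V) (D.B (Sum.inl none)) = (256 : K) • (m : V) := F_one ρ hD m
  have h4 : ∀ k : Fin 5, F ρ D (m : V) (D.B (Sum.inl (some k))) = 0 :=
    fun k => F_w ρ hD h2 m k
  have h5 : ∀ q : Fin 3 × Fin 5 × Fin 8, F ρ D (m : V) (D.B (Sum.inr q)) =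
      (((tM ρ hD ^ (q.2.1 : ℕ) * (YM ρ hD q.1 * YM ρ hD q.1) * tM ρ hD ^ (4 * (q.2.1 : ℕ))) m :
        ↥(D.Vl ρ)) : V) := fun q => F_x ρ hD m _ _ _
  rw [h3, Finset.sum_congr rfl (fun k _ => h4 k), Finset.sum_congr rfl (fun q _ => h5 q),
    Finset.sum_const_zero, add_zero, Fintype.sum_prod_type]
  simp only [Fintype.sum_prod_type, Finset.sum_const, Finset.card_univ, Fintype.card_fin]
  have h6 : ((Zop (tM ρ hD) (YM ρ hD) m : ↥(D.Vl ρ)) : V) = (32 : K) • (m : V) +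
      ∑ j : Fin 3, ∑ k : Fin 5, (((tM ρ hD ^ (k : ℕ) * (YM ρ hD j * YM ρ hD j) *
        tM ρ hD ^ (4 * (k : ℕ))) m : ↥(D.Vl ρ)) : V) := by
    have h7 : (32 : Module.End K ↥(D.Vl ρ)) m = (32 : K) • m := by
      have : (32 : Module.End K ↥(D.Vl ρ)) = (32 : K) • (1 : Module.End K ↥(D.Vl ρ)) := by
        rw [← Nat.cast_ofNat (R := K), Nat.cast_smul_eq_nsmul, nsmul_eq_mul, mul_one]
        norm_num
      rw [this]; rfl
    have h8 : ∀ k : ℕ, (tM ρ hD ^ k * (YM ρ hD 0 * YM ρ hD 0 + YM ρ hD 1 * YM ρ hD 1 +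
        YM ρ hD 2 * YM ρ hD 2) * tM ρ hD ^ (4 * k)) =
        ∑ j : Fin 3, (tM ρ hD ^ k * (YM ρ hD j * YM ρ hD j) * tM ρ hD ^ (4 * k)) := by
      intro k
      rw [Fin.sum_univ_three, ← add_mul, ← add_mul, ← mul_add, ← mul_add]
    unfold Zop
    rw [LinearMap.add_apply, h7, Submodule.coe_add, Submodule.coe_smul]
    congr 1
    rw [Finset.sum_comm, Finset.sum_range, LinearMap.sum_apply, Submodule.coe_sum]
    refine Finset.sum_congr rfl fun k _ => ?_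
    rw [h8, LinearMap.sum_apply, Submodule.coe_sum]
  rw [h6]
  have h9 : ∀ (j : Fin 3) (k : Fin 5), (8 : ℕ) • (((tM ρ hD ^ (k : ℕ) * (YM ρ hD j * YM ρ hD j) *
        tM ρ hD ^ (4 * (k : ℕ))) m : ↥(D.Vl ρ)) : V) =
      (8 : K) • (((tM ρ hD ^ (k : ℕ) * (YM ρ hD j * YM ρ hD j) *
        tM ρ hD ^ (4 * (k : ℕ))) m : ↥(D.Vl ρ)) : V) := by
    intro j k
    rw [← Nat.cast_smul_eq_nsmul K, Nat.cast_ofNat]
  simp only [h9, ← Finset.smul_sum]
  rw [smul_add, smul_add, smul_smul, smul_smul, smul_smul]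
  norm_num

lemma sum_comm_aux [Fintype G] (h : G) (m : V) :
    ρ h (∑ g : G, ρ g (D.E ρ (ρ g⁻¹ m))) = ∑ g : G, ρ g (D.E ρ (ρ g⁻¹ (ρ h m))) := by
  rw [map_sum, ← Equiv.sum_comp (Equiv.mulLeft h⁻¹)
    (fun g => ρ h (ρ g (D.E ρ (ρ g⁻¹ m))))]
  refine Finset.sum_congr rfl fun g _ => ?_
  simp only [Equiv.coe_mulLeft]
  rw [mul_inv_rev, inv_inv, ← rho_mul, rho_mul ρ (g⁻¹) h, mul_inv_cancel_left]

/-- TL-B5 -/
theorem Zformula [Fintype G] (h2 : (2 : K) ≠ 0) (m : ↥(D.Vl ρ)) :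
    ∑ g : G, ρ g (D.E ρ (ρ g⁻¹ (m : V))) =
      (160 : K) • ((Zop (tM ρ hD) (YM ρ hD) m : ↥(D.Vl ρ)) : V) := by
  have hmem : (∑ g : G, ρ g (D.E ρ (ρ g⁻¹ (m : V)))) ∈ D.Vl ρ := by
    refine ⟨fun a => ?_, ?_⟩
    · rw [sum_comm_aux, m.2.1 a]
    · rw [sum_comm_aux, m.2.2, ← Finset.sum_neg_distrib]
      refine Finset.sum_congr rfl fun g _ => ?_
      rw [map_neg, map_neg, map_neg]
  have h1 := E_of_mem ρ hD hmem
  have h3 : D.E ρ (∑ g : G, ρ g (D.E ρ (ρ g⁻¹ (m : V)))) = ∑ g : G, F ρ D (m : V) g := by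
    rw [map_sum]; rfl
  rw [h3, sum_F ρ hD h2] at h1
  have h16 : (16 : K) ≠ 0 := by
    have : (16 : K) = 2 ^ 4 := by norm_num
    rw [this]; exact pow_ne_zero 4 h2
  have h4 : (2560 : K) = 16 * 160 := by norm_num
  rw [h4, mul_smul] at h1
  exact (smul_right_injective V h16 h1).symm

end Pool.Agent.Helper79.TL.B5
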